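import Pool.Agent.U151.HH.DblH

/-!
All subpaths of the limits of the exploration path of the half-plane: lower bounds.
-/

set_option autoImplicit false

namespace Pool.Agent.U151.HH

open MeasureTheory Filter Topology
open H984H (lawH)
open Pool.Agent.Y989.FR (Fro)
open Pool.Agent.U151.DB (Dp)
open scoped ENNReal NNReal

theorem iUnion_DH : (⋃ m : ℕ, DH (3 * (1 / ((m : ℝ) + 1))) ((m : ℝ) + 1)) = {z | 0 < z.im} := by
  ext z
  simp only [Set.mem_iUnion, Set.mem_ofPred_eq]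
  constructor
  · rintro ⟨m, -, h2, -⟩
    exact lt_trans (by positivity) h2
  · intro h
    obtain ⟨m1, hm1⟩ := exists_nat_one_div_lt (show 0 < z.im / 3 by positivity)
    obtain ⟨m2, hm2⟩ := exists_nat_gt (max |z.re| z.im)
    obtain ⟨m, hm⟩ : ∃ m : ℕ, m = max m1 m2 := ⟨_, rfl⟩
    have h1 : 1 / ((m : ℝ) + 1) ≤ 1 / ((m1 : ℝ) + 1) :=
      Nat.one_div_le_one_div (by rw [hm]; exact le_max_left _ _)
    have h2 : (m2 : ℝ) ≤ m := by
      have : m2 ≤ m := by rw [hm]; exact le_max_right _ _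
      exact_mod_cast this
    rw [max_lt_iff] at hm2
    refine ⟨m, by linarith, by linarith, by linarith⟩

theorem mono_DH : Monotone (fun m : ℕ => DH (3 * (1 / ((m : ℝ) + 1))) ((m : ℝ) + 1)) := by
  intro m m' hmm z hz
  obtain ⟨h1, h2, h3⟩ := hz
  have h5 : 1 / ((m' : ℝ) + 1) ≤ 1 / ((m : ℝ) + 1) := Nat.one_div_le_one_div hmm
  have h6 : (m : ℝ) ≤ m' := by exact_mod_cast hmm
  exact ⟨by linarith, by linarith, by linarith⟩

theorem open_up : IsOpen {z : ℂ | 0 < z.im} := isOpen_lt continuous_const Complex.continuous_im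

/-- Every subpath of the limit, unless it is a point, which meets the open half-plane, meets the
boundaries of the components of the complement of the curve in a set of dimension at least
`4/3`. -/
theorem arcsH {φ : ℕ → ℕ} (hφ : Tendsto φ atTop atTop)
    {μ : ProbabilityMeasure C(unitInterval, ℂ)} (hμ : Tendsto (fun i => lawH (φ i)) atTop (𝓝 μ)) :
    ∀ᵐ f : C(unitInterval, ℂ) ∂(μ : Measure C(unitInterval, ℂ)), ∀ u v : unitInterval,
      (f '' Set.Icc u v ∩ {z | 0 < z.im}).Nonempty → ¬ (f '' Set.Icc u v).Subsingleton →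
      (4/3 : ℝ≥0∞) ≤ dimH (Fro (Set.range f) ∩ f '' Set.Icc u v) := by
  have e43 : ENNReal.ofReal (4/3) = 4/3 := by
    rw [ENNReal.ofReal_div_of_pos (by norm_num)]
    norm_num
  have h3 : ∀ᵐ f : C(unitInterval, ℂ) ∂(μ : Measure C(unitInterval, ℂ)), ∀ j m : ℕ,
      ∀ u v : unitInterval, u ≤ v →
      f u ∈ DH (3 * (1 / ((m : ℝ) + 1))) ((m : ℝ) + 1) →
      1 / ((m : ℝ) + 1) < dist (f u) (f v) →
      ENNReal.ofReal (4/3 - 1 / ((j:ℝ) + 1)) ≤ dimH (Fro (Set.range f) ∩ f '' Set.Icc u v) := by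
    rw [ae_all_iff]
    intro j
    rw [ae_all_iff]
    intro m
    rcases le_or_gt (4/3 - 1 / ((j:ℝ) + 1)) 0 with h | h
    · filter_upwards with c u v _ _ _
      rw [ENNReal.ofReal_of_nonpos h]
      exact bot_le
    · have h4 : (0:ℝ) < 1 / ((j:ℝ) + 1) := by positivity
      exact llH Y989.FR.QC.t_QC Y989.FR.GEO.t_GEO Y989.FR.CHN.t_CHN hφ hμ h (by linarith)
        (by positivity) (by positivity)
  filter_upwards [h3] with c c3 u v huv1 huv2
  have hlim : Tendsto (fun j : ℕ => ENNReal.ofReal (4/3 - 1 / ((j:ℝ) + 1))) atTop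
      (𝓝 (ENNReal.ofReal (4/3 - 0))) := by
    apply ENNReal.tendsto_ofReal
    apply tendsto_const_nhds.sub
    exact tendsto_one_div_add_atTop_nhds_zero_nat
  rw [sub_zero, e43] at hlim
  refine le_of_tendsto' hlim (fun j => ?_)
  refine Pool.Agent.U151.LB.all_arcs mono_DH ?_ (fun m u v huv h1 h2 => c3 j m u v huv h1 h2)
    ?_ huv2
  · rw [iUnion_DH]
    exact open_up
  · rw [iUnion_DH]
    exact huv1

/-- All arcs. -/
theorem all_arcs' {f : C(unitInterval, ℂ)} {t : ℝ≥0∞} {D : ℕ → Set ℂ}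
    {T : unitInterval → unitInterval → Set ℂ}
    (hT : ∀ u v u' v' : unitInterval, u' ≤ u → v ≤ v' → T u v ⊆ T u' v')
    (hmono : Monotone D) (hDo : IsOpen (⋃ m, D m))
    (h : ∀ m : ℕ, ∀ u v : unitInterval, u ≤ v → f u ∈ D m →
      1 / ((m : ℝ) + 1) < dist (f u) (f v) → t ≤ dimH (T u v))
    {u v : unitInterval} (h1 : (f '' Set.Icc u v ∩ ⋃ m, D m).Nonempty)
    (h2 : ¬ (f '' Set.Icc u v).Subsingleton) : t ≤ dimH (T u v) := by
  obtain ⟨a, b, g1, g2, g3, g4, g5⟩ := Pool.Agent.U151.LB.arc_start hDo h1 h2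
  rw [Set.mem_iUnion] at g4
  obtain ⟨m1, hm1⟩ := g4
  obtain ⟨m2, hm2⟩ := exists_nat_one_div_lt (dist_pos.2 g5)
  refine (h (max m1 m2) a b g2 (hmono (le_max_left _ _) hm1) ?_).trans (dimH_mono ?_)
  · exact lt_of_le_of_lt (Nat.one_div_le_one_div (le_max_right _ _)) hm2
  · exact hT _ _ _ _ g1 g3

/-- Every subpath of the limit, unless it is a point, which meets the open half-plane, has double
points in the open half-plane of dimension at least `3/4`. -/
theorem arcsHD {φ : ℕ → ℕ} (hφ : Tendsto φ atTop atTop)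
    {μ : ProbabilityMeasure C(unitInterval, ℂ)} (hμ : Tendsto (fun i => lawH (φ i)) atTop (𝓝 μ)) :
    ∀ᵐ f : C(unitInterval, ℂ) ∂(μ : Measure C(unitInterval, ℂ)), ∀ u v : unitInterval,
      (f '' Set.Icc u v ∩ {z | 0 < z.im}).Nonempty → ¬ (f '' Set.Icc u v).Subsingleton →
      (3/4 : ℝ≥0∞) ≤ dimH (Dp f u v ∩ {z | 0 < z.im}) := by
  have e34 : ENNReal.ofReal (3/4) = 3/4 := by
    rw [ENNReal.ofReal_div_of_pos (by norm_num)]
    norm_num
  have h3 : ∀ᵐ f : C(unitInterval, ℂ) ∂(μ : Measure C(unitInterval, ℂ)), ∀ j m : ℕ,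
      ∀ u v : unitInterval, u ≤ v →
      f u ∈ DH (3 * (1 / ((m : ℝ) + 1))) ((m : ℝ) + 1) →
      1 / ((m : ℝ) + 1) < dist (f u) (f v) →
      ENNReal.ofReal (3/4 - 1 / ((j:ℝ) + 1)) ≤ dimH (Dp f u v ∩ {z | 0 < z.im}) := by
    rw [ae_all_iff]
    intro j
    rw [ae_all_iff]
    intro m
    rcases le_or_gt (3/4 - 1 / ((j:ℝ) + 1)) 0 with h | h
    · filter_upwards with c u v _ _ _
      rw [ENNReal.ofReal_of_nonpos h]
      exact bot_le
    · have h4 : (0:ℝ) < 1 / ((j:ℝ) + 1) := by positivity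
      exact llHD hφ hμ h (by linarith) (by positivity) (by positivity)
  filter_upwards [h3] with c c3 u v huv1 huv2
  have hlim : Tendsto (fun j : ℕ => ENNReal.ofReal (3/4 - 1 / ((j:ℝ) + 1))) atTop
      (𝓝 (ENNReal.ofReal (3/4 - 0))) := by
    apply ENNReal.tendsto_ofReal
    apply tendsto_const_nhds.sub
    exact tendsto_one_div_add_atTop_nhds_zero_nat
  rw [sub_zero, e34] at hlim
  refine le_of_tendsto' hlim (fun j => ?_)
  refine all_arcs' (T := fun u v => Dp c u v ∩ {z | 0 < z.im}) (fun u v u' v' h1 h2 =>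
    Set.inter_subset_inter_left _ (Pool.Agent.U151.DB.Dp_mono h1 h2)) mono_DH ?_
    (fun m u v huv h1 h2 => c3 j m u v huv h1 h2) ?_ huv2
  · rw [iUnion_DH]
    exact open_up
  · rw [iUnion_DH]
    exact huv1

end Pool.Agent.U151.HH
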