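import Pool.Agent.U151.HH.Base

/-!
Subpaths of the exploration path of the half-plane: visited vertices with thick paths.
-/

set_option autoImplicit false

namespace Pool.Agent.U151.HH

open H974 hiding dl
open H12S Finset H389NS H984P H984N H342P MeasureTheory Filter Topology
open Pool.Agent.H389R2.Dim
open H984H (Conf perc path opn cut bx gam curve lawH lawH_apply)
open Pool.Agent.Y989.HP.DETV (bxN)
open Pool.Agent.Y989.HP (AwP Qct)
open Pool.Agent.Y989.FR (Tk AE Awy Qc Fro S_QC S_GEO S_CHN)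
open Pool.Agent.Y989.FR.LG (AA)
open Pool.Agent.W822.PD (EnV)
open Pool.Agent.Y989.HP.LIM (dl dl_pos place_zp curve_vis)
open Pool.Agent.TH966.DP (zp dist_pos_zp zp_dist zp_inj pl_node nt nt_mul)
open Pool.Agent.U151.LB (near_orb exm_near blk_bulk mem_blk far_of_sd sd_tri RFrN RFrN_congr BadX
  BadN badX_le lgA GA isClosed_GA good_of_VX awc)
open scoped ENNReal NNReal

theorem badX_perc {t c E : ℝ} {M B N a R : ℕ} {ρ : ℤ} (haR : 16 * a ≤ R) (hR : 1 ≤ R)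
    (hρ : 0 ≤ ρ) (hN : 2 * ρ ≤ N) :
    perc.real {ω | BadX t c E M B N a R (bxN ρ) (cut ω ρ)} ≤
      Pr (fun _ => (1/2:ℝ)) (RE (-ρ) (-ρ + N) 0 (0 + N)) (BadN t c E M B N a R (-ρ) 0) := by
  have h1 := Pool.Agent.Y989.HP.RETCUT.t_CUTP ρ (BadX t c E M B N a R (bxN ρ))
  rw [h1]
  refine badX_le (D := bxN ρ) haR hR ?_ ?_
  · show ρ ≤ -ρ + N
    omega
  · show ρ ≤ N
    omega

theorem arc_VH {t c E : ℝ} {M B N a r n : ℕ} (hn : 0 < n) {ω : Conf} {ρ : ℤ} (har : 16 * a ≤ r)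
    (hr1 : 1 ≤ r) (hbad : ¬ BadX t c E M B N a r (bxN ρ) (cut ω ρ)) {x y : unitInterval}
    (hxy : x ≤ y) {κ1 M1 : ℝ} (hr : dl n * (r + 8) ≤ κ1) (hD1 : |(curve n ω x).re| < M1)
    (hD2 : 6 * κ1 < (curve n ω x).im) (hD3 : (curve n ω x).im < M1)
    (hρ : M1 + 6 * κ1 ≤ dl n * ρ) (hdist : 2 * κ1 < dist (curve n ω x) (curve n ω y)) :
    ∃ V : Finset Vtx, c * (N : ℝ) ^ (4/3 : ℝ) ≤ (V.card : ℝ) ∧
      EnV t V ≤ E * (N : ℝ) ^ (8/3 - t) ∧ ∀ w ∈ V, Tk M B (a / 64) w (opn ω) ∧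
        inR (-ρ + 3 * r) (ρ - 3 * r) (3 * r) (ρ - 3 * r) w ∧
        ∃ i ≤ n, (path ω i).1 = w ∧ ∃ s : unitInterval, (x ≤ s ∧ s ≤ y) ∧
          dist (curve n ω s) (zp (dl n) w) ≤ 2 * dl n := by
  obtain ⟨m, τ, hmn, hτm, hin, hτ1, hτ, horb, hx, hy⟩ :=
    strand hn hxy hr hD1 hD2 hD3 hρ hdist
  have hn' : (0:ℝ) < n := by exact_mod_cast hn
  have hFG : ∀ e ∈ blk (path ω m).1 (2 * r), (e ∈ opn ω ↔ e ∈ (bxN ρ).cfg (cut ω ρ)) :=
    fun e he => (cfg_blk hr1 hin he).symm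
  have ho := orb_blk hr1 hτ1 hFG
  have hτ1' : ∀ s < τ, ¬ Far (path ω m).1 r (orb ((bxN ρ).cfg (cut ω ρ)) (path ω m) s).1 := by
    intro s hs
    rw [ho s hs.le]
    exact hτ1 s hs
  have hgood : RFrN t c E M B N a (path ω m) τ (opn ω) := by
    refine RFrN_congr har hr1 hτ1' (fun e he => (hFG e he).symm) ?_
    by_contra hcon
    refine hbad ⟨path ω m, τ, hin, hτ1', ?_, hcon⟩
    rw [ho τ le_rfl]
    exact hτ
  obtain ⟨V, hV1, hV2, hV3⟩ := hgood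
  refine ⟨V, hV1, hV2, fun w hw => ?_⟩
  obtain ⟨⟨s, hsτ, hsw⟩, hTk⟩ := hV3 w hw
  have hk : m - s ≤ n := by omega
  have hsw' : (path ω (m - s)).1 = w := by
    rw [← horb s hsτ, hsw]
  refine ⟨hTk, ?_, m - s, hk, hsw', nt n _ hk, ⟨?_, ?_⟩, ?_⟩
  · have h1 := near_orb hτ1 hsτ
    rw [hsw] at h1
    unfold sd at h1
    rw [max_le_iff, abs_le, abs_le] at h1
    unfold inR at hin ⊢
    omega
  · show (x : ℝ) ≤ ((m - s : ℕ) : ℝ) / n
    rw [le_div_iff₀ hn']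
    exact hx s hsτ
  · show ((m - s : ℕ) : ℝ) / n ≤ y
    rw [div_le_iff₀ hn']
    have : ((m - s : ℕ) : ℝ) ≤ m := by
      have : m - s ≤ m := Nat.sub_le _ _
      exact_mod_cast this
    linarith
  · have h1 := curve_vis hn ω hk
    rw [hsw'] at h1
    exact h1

/-- Thick paths keep away from the exploration path. -/
theorem thick_H {ω : Conf} {M B a k r : ℕ} {ρ : ℤ} (hM : 1 ≤ M) (hB : 1 ≤ B)
    (hk : k = a / 64) (ha : 192 ≤ a) (har : 16 * a ≤ r) {w : Vtx}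
    (hw : inR (-ρ + 3 * r) (ρ - 3 * r) (3 * r) (ρ - 3 * r) w)
    (h : Tk M B k w (opn ω)) :
    ∃ x ∈ bdB w 2, ∃ y ∈ bdB w k,
      Reach {e | e ∈ AE w 2 k ∧ AwP ω M B k w (src e) ∧ AwP ω M B k w (tgt e)} x y := by
  obtain ⟨x, hx, y, hy, hr0⟩ := h
  refine ⟨x, hx, y, hy, hr0.mono ?_⟩
  have hfar : Far w a ((0, 0) : Vtx) := by
    unfold inR at hw
    unfold Far
    simp only
    omega
  have key : ∀ z : Vtx, sd z w ≤ k → (∀ c ∈ Y989.FR.BB k w (opn ω), Awy M B k w c z) →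
      AwP ω M B k w z := by
    intro z hz hA i
    exact awc hM hB hk ha (Reach.refl _ _) hfar hz hA _ (H984H.path_clu ω i)
  rintro g ⟨h1, h2, h3⟩
  have h5 := Y989.FR.LIM3.mem_AE_sd h1
  exact ⟨h1, key _ h5.1 h2, key _ h5.2 h3⟩

theorem Qct_Qc {M κ R e : ℝ} {B N : ℕ} {t : ℝ} : Qct t M κ R e B N ⊆ Qc M κ R e B N := by
  rintro p ⟨h1, ⟨s, -, h2⟩, h3⟩
  exact ⟨h1, ⟨s, h2⟩, h3⟩

/-- The part of the half-plane at height more than `η`. -/
def DH (η M : ℝ) : Set ℂ := {z | |z.re| < M ∧ (η < z.im ∧ z.im < M)}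

theorem isOpen_DH (η M : ℝ) : IsOpen (DH η M) := by
  refine IsOpen.inter ?_ (IsOpen.inter ?_ ?_)
  · exact isOpen_lt (continuous_abs.comp Complex.continuous_re) continuous_const
  · exact isOpen_lt continuous_const Complex.continuous_im
  · exact isOpen_lt Complex.continuous_im continuous_const

end Pool.Agent.U151.HH
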