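import Pool.Agent.U151.HH.ArcH

/-!
Subpaths of the exploration path of the half-plane: the limit.
-/

set_option autoImplicit false

namespace Pool.Agent.U151.HH

open H974 hiding dl
open H12S Finset H389NS H984P H984N H342P MeasureTheory Filter Topology
open Pool.Agent.H389R2.Dim
open H984H (Conf perc path opn cut bx gam curve lawH lawH_apply)
open Pool.Agent.Y989.HP.DETV (bxN)
open Pool.Agent.Y989.HP (AwP Qct)
open Pool.Agent.Y989.FR (Tk AE Awy Qc Fro S_QC S_GEO S_CHN)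
open Pool.Agent.Y989.FR.LG (AA)
open Pool.Agent.W822.PD (EnV)
open Pool.Agent.Y989.HP.LIM (dl dl_pos place_zp curve_vis)
open Pool.Agent.TH966.DP (zp dist_pos_zp zp_dist zp_inj pl_node nt nt_mul)
open Pool.Agent.U151.LB (near_orb exm_near blk_bulk mem_blk far_of_sd sd_tri RFrN RFrN_congr BadX
  BadN badX_le lgA GA isClosed_GA good_of_VX awc parV tri)
open scoped ENNReal NNReal

theorem dl_lim {φ : ℕ → ℕ} (hφ : Tendsto φ atTop atTop) :
    Tendsto (fun i => dl (φ i)) atTop (𝓝 0) := by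
  have h1 : Tendsto (fun x : ℝ => x ^ (-(4/7) : ℝ)) atTop (𝓝 0) :=
    tendsto_rpow_neg_atTop (by norm_num)
  exact h1.comp (tendsto_natCast_atTop_atTop.comp hφ)

theorem llH (hqc : S_QC) (hgeo : S_GEO) (hchn : S_CHN) {φ : ℕ → ℕ} (hφ : Tendsto φ atTop atTop)
    {μ : ProbabilityMeasure C(unitInterval, ℂ)} (hμ : Tendsto (fun i => lawH (φ i)) atTop (𝓝 μ))
    {t : ℝ} (ht : 0 < t) (ht1 : t < 4/3) {κ M1 : ℝ} (hκ : 0 < κ) (hM1 : 0 < M1) :
    ∀ᵐ f : C(unitInterval, ℂ) ∂(μ : Measure C(unitInterval, ℂ)), ∀ u v : unitInterval, u ≤ v →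
      f u ∈ DH (3 * κ) M1 → κ < dist (f u) (f v) →
      ENNReal.ofReal t ≤ dimH (Fro (Set.range f) ∩ f '' Set.Icc u v) := by
  refine lgA (fun f : C(unitInterval, ℂ) => f) hμ ht (fun f => Fro (Set.range f)) ?_
  intro ε hε
  obtain ⟨δ', hδ', hδε⟩ : ∃ δ : ℝ, 0 < δ ∧ ENNReal.ofReal δ ≤ ε := by
    rcases eq_or_ne ε ∞ with h | h
    · exact ⟨1, one_pos, by rw [h]; exact le_top⟩
    · exact ⟨ε.toReal, ENNReal.toReal_pos hε.ne' h, by rw [ENNReal.ofReal_toReal h]⟩
  obtain ⟨S, hSdef⟩ : ∃ S : ℝ, S = M1 + 3 * κ := ⟨_, rfl⟩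
  have hS : 0 < S := by rw [hSdef]; positivity
  obtain ⟨M, B, ρ0, c0, E0, hM, hB, hρ0, hc0, hE0, n0, hn0⟩ :=
    parV ht ht1 (tri Y989.FR.a_GOOD3) (κ := κ / (64 * S)) (by positivity) hδ'
  obtain ⟨M', hM'⟩ : ∃ M' : ℝ, M' = 2 ^ B * M * κ ^ (B - 1) := ⟨_, rfl⟩
  have hMr : (0:ℝ) < M := by
    have : 0 < M := by omega
    exact_mod_cast this
  have hM'0 : 0 < M' := by rw [hM']; positivity
  obtain ⟨R0, hR0⟩ : ∃ R0 : ℝ, R0 = 4 * S + κ := ⟨_, rfl⟩
  obtain ⟨NN, hNN⟩ := Classical.axiomOfChoice (fun k : ℕ =>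
    hchn R0 (1 / ((k : ℝ) + 1)) (by positivity))
  obtain ⟨K, hKdef⟩ : ∃ K : Set ℂ, K = Set.Icc (-(2 * S)) (2 * S) ×ℂ Set.Icc 0 (2 * S) := ⟨_, rfl⟩
  have hKc : IsCompact K := by
    rw [hKdef]
    exact isCompact_Icc.reProdIm isCompact_Icc
  obtain ⟨cc, hcc⟩ : ∃ cc : ℝ, cc = 2 ^ (-t) / (E0 / c0 ^ 2 * S ^ (-t)) := ⟨_, rfl⟩
  have hcl : ∀ ε' : ℝ, IsClosed {f : C(unitInterval, ℂ) | GA t ε' cc κ (DH (3 * κ) M1) K
      (fun k => Qc M' (ρ0 * S / 128) R0 (1 / ((k : ℝ) + 1)) B (NN k)) f} := fun ε' =>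
    isClosed_GA (fun k => hqc _ _ _ _ _ _) hKc (isOpen_DH _ _)
  refine ⟨cc, K, fun k => Qc M' (ρ0 * S / 128) R0 (1 / ((k : ℝ) + 1)) B (NN k),
    by rw [hcc]; positivity, hKc, fun k => hqc _ _ _ _ _ _, hcl, ?_, ?_⟩
  · intro f z _ hz
    exact hgeo M' (ρ0 * S / 128) R0 B NN f z hM'0 (by positivity) hB hz
  · intro ε' hε'
    obtain ⟨δm, hδm⟩ : ∃ δm : ℝ, δm = min (ε' / 4) (min (min S (κ / 64))
      (min (ε' / (3 * M')) (S / ((n0 : ℝ) + 1)))) := ⟨_, rfl⟩
    have hδm0 : 0 < δm := by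
      rw [hδm]
      refine lt_min (by positivity) (lt_min (lt_min hS (by positivity))
        (lt_min (by positivity) (by positivity)))
    have hev : ∀ᶠ i in atTop, dl (φ i) < δm := (tendsto_order.1 (dl_lim hφ)).2 _ hδm0
    filter_upwards [hev, hφ.eventually_gt_atTop 0] with i hi hn
    have hi1 : dl (φ i) ≤ ε' / 4 := hi.le.trans (by rw [hδm]; exact min_le_left _ _)
    have hi2 : dl (φ i) ≤ S := hi.le.trans (by
      rw [hδm]; exact (min_le_right _ _).trans ((min_le_left _ _).trans (min_le_left _ _)))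
    have hi3 : dl (φ i) ≤ κ / 64 := hi.le.trans (by
      rw [hδm]; exact (min_le_right _ _).trans ((min_le_left _ _).trans (min_le_right _ _)))
    have hi4 : dl (φ i) ≤ ε' / (3 * M') := hi.le.trans (by
      rw [hδm]; exact (min_le_right _ _).trans ((min_le_right _ _).trans (min_le_left _ _)))
    have hi5 : dl (φ i) ≤ S / ((n0 : ℝ) + 1) := hi.le.trans (by
      rw [hδm]; exact (min_le_right _ _).trans ((min_le_right _ _).trans (min_le_right _ _)))
    obtain ⟨n, hnφ⟩ : ∃ n : ℕ, n = φ i := ⟨_, rfl⟩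
    rw [← hnφ] at hi1 hi2 hi3 hi4 hi5 hn
    have hδi := dl_pos hn
    obtain ⟨d, hd⟩ : ∃ d : ℝ, d = dl n := ⟨_, rfl⟩
    have hop : IsOpen {f : C(unitInterval, ℂ) | ¬ GA t ε' cc κ (DH (3 * κ) M1) K
        (fun k => Qc M' (ρ0 * S / 128) R0 (1 / ((k : ℝ) + 1)) B (NN k)) f} :=
      (hcl ε').isOpen_compl
    change (lawH (φ i) : Measure C(unitInterval, ℂ)) {f : C(unitInterval, ℂ) |
      ¬ GA t ε' cc κ (DH (3 * κ) M1) K
        (fun k => Qc M' (ρ0 * S / 128) R0 (1 / ((k : ℝ) + 1)) B (NN k)) f} ≤ ε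
    rw [← hnφ, lawH_apply n hop.measurableSet]
    refine le_trans (ENNReal.ofReal_le_ofReal ?_) hδε
    rw [← hd] at hi1 hi2 hi3 hi4 hi5 hδi
    -- the lattice scale
    obtain ⟨p, hp⟩ : ∃ p : ℕ, p = ⌈S / d⌉₊ := ⟨_, rfl⟩
    have hp1 : S / d ≤ p := by rw [hp]; exact Nat.le_ceil _
    have hp2 : (p : ℝ) < S / d + 1 := by
      rw [hp]
      exact Nat.ceil_lt_add_one (by positivity)
    have hdp1 : S ≤ d * p := by
      rw [div_le_iff₀ hδi] at hp1
      linarith
    have hdp2 : d * p ≤ 2 * S := by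
      have h1 : d * p ≤ d * (S / d + 1) := mul_le_mul_of_nonneg_left hp2.le hδi.le
      have h2 : d * (S / d + 1) = S + d := by field_simp
      linarith
    obtain ⟨N, hN⟩ : ∃ N : ℕ, N = 2 * p := ⟨_, rfl⟩
    have hNr : (N : ℝ) = 2 * p := by rw [hN]; push_cast; ring
    have hnn0 : n0 ≤ N := by
      have h1 : (n0 : ℝ) + 1 ≤ S / d := by
        rw [le_div_iff₀ hδi]
        rw [le_div_iff₀ (by positivity)] at hi5
        linarith
      have h2 : (n0 : ℝ) ≤ p := by linarith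
      have h3 : n0 ≤ p := by exact_mod_cast h2
      omega
    have hNpos : 0 < N := by
      have h1 : (0:ℝ) < p := lt_of_lt_of_le (by positivity) hp1
      have h2 : 0 < p := by exact_mod_cast h1
      omega
    have hdN1 : S ≤ d * N := by
      rw [hNr]
      linarith
    have hdN2 : d * N ≤ 4 * S := by
      rw [hNr]
      linarith
    obtain ⟨a, r, ha3, ha1, har, hrκ, hpr⟩ := hn0 N hnn0
    have hpr := hpr (-(p : ℤ)) 0
    refine le_trans ?_ ((badX_perc har (by omega) (ρ := (p : ℤ)) (by omega)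
      (by rw [hN]; push_cast; exact le_rfl)).trans hpr)
    refine measureReal_mono ?_ (measure_ne_top _ _)
    intro ω hbad
    by_contra hcon
    apply hbad
    intro u v huv hD hdist
    have har' : (16 : ℝ) * a ≤ r := by exact_mod_cast har
    have hdr : d * r ≤ κ / 16 := by
      have h1 : d * r ≤ d * (κ / (64 * S) * N) := mul_le_mul_of_nonneg_left hrκ hδi.le
      have h2 : d * (κ / (64 * S) * N) = κ / (64 * S) * (d * N) := by ring
      have h3 : κ / (64 * S) * (d * N) ≤ κ / (64 * S) * (4 * S) :=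
        mul_le_mul_of_nonneg_left hdN2 (by positivity)
      have h4 : κ / (64 * S) * (4 * S) = κ / 16 := by field_simp; norm_num
      linarith
    obtain ⟨hDa, hDb, hDc⟩ := hD
    obtain ⟨V, hV1, hV2, hV3⟩ := arc_VH (κ1 := κ / 2) (M1 := M1) hn har (by omega) hcon huv
      (by rw [← hd]; nlinarith) hDa (by linarith) hDc
      (by rw [← hd]; push_cast; linarith) (by linarith)
    rw [hcc]
    refine good_of_VX hδi hS hNpos hdN1 ht hc0 hE0 (by linarith) hV1 hV2 ?_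
    intro w hw
    obtain ⟨hTk, hin, i', hi', hiw, s, hs, hsc⟩ := hV3 w hw
    rw [← hd] at hsc
    have hk64 : 64 * (a / 64) ≤ a := Nat.mul_div_le a 64
    have hk128 : a ≤ 128 * (a / 64) := by omega
    have hk64' : 64 * ((a / 64 : ℕ) : ℝ) ≤ a := by exact_mod_cast hk64
    have hk128' : (a : ℝ) ≤ 128 * ((a / 64 : ℕ) : ℝ) := by exact_mod_cast hk128
    have hk0 : (0:ℝ) ≤ ((a / 64 : ℕ) : ℝ) := Nat.cast_nonneg _
    have hda : d * a ≤ κ / 128 := by
      have := mul_le_mul_of_nonneg_left har' hδi.le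
      nlinarith
    have hda0 : 0 ≤ d * (a:ℝ) := by positivity
    have hda1 : ρ0 * S ≤ d * a := by
      have h1 := mul_le_mul_of_nonneg_left ha1 hδi.le
      have h2 : ρ0 * S ≤ ρ0 * (d * N) := mul_le_mul_of_nonneg_left hdN1 hρ0.le
      linarith
    -- position of `w`
    have hin0 := hin
    obtain ⟨⟨w1, w2⟩, w3, w4⟩ := hin
    have w1' : -(p : ℝ) ≤ w.1 := by
      have : -(p : ℤ) ≤ w.1 := by omega
      exact_mod_cast this
    have w2' : (w.1 : ℝ) ≤ p := by
      have : w.1 ≤ (p : ℤ) := by omega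
      exact_mod_cast this
    have w3' : (0 : ℝ) ≤ w.2 := by
      have : 0 ≤ w.2 := by omega
      exact_mod_cast this
    have w4' : (w.2 : ℝ) + 1 ≤ p := by
      have : w.2 + 1 ≤ (p : ℤ) := by omega
      exact_mod_cast this
    have er : (zp d w).re = d * w.1 := rfl
    have ei : (zp d w).im = d * (w.2 + 1) := rfl
    have x1 : -(2 * S) ≤ d * w.1 := by
      have : d * (-(p : ℝ)) ≤ d * w.1 := mul_le_mul_of_nonneg_left w1' hδi.le
      linarith
    have x2 : d * w.1 ≤ 2 * S := by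
      have : d * w.1 ≤ d * (p : ℝ) := mul_le_mul_of_nonneg_left w2' hδi.le
      linarith
    have x3 : 0 ≤ d * ((w.2 : ℝ) + 1) := by positivity
    have x4 : d * ((w.2 : ℝ) + 1) ≤ 2 * S := by
      have : d * ((w.2 : ℝ) + 1) ≤ d * (p : ℝ) := mul_le_mul_of_nonneg_left w4' hδi.le
      linarith
    have hM'd : M' * (3 * d) ≤ ε' := by
      rw [le_div_iff₀ (by positivity)] at hi4
      linarith
    refine ⟨?_, fun j hj => ⟨?_, s, hs, ?_⟩⟩
    · rw [hKdef, Complex.mem_reProdIm, Set.mem_Icc, Set.mem_Icc, er, ei]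
      exact ⟨⟨x1, x2⟩, x3, x4⟩
    · rw [hd]
      refine Qct_Qc (t := 1) (Pool.Agent.Y989.HP.LIM.mem_Qct hn hB (k := a / 64) (by omega)
        ⟨i', hi', ?_, hiw⟩ (thick_H (by omega) hB rfl ha3 har hin0 hTk) hM'0.le ?_ ?_ ?_ ?_ ?_
        (hNN j))
      · rw [one_mul]
        exact_mod_cast hi'
      · rw [← hd, hM']
        refine mul_le_mul_of_nonneg_left ?_ (by positivity)
        refine pow_le_pow_left₀ (by positivity) ?_ _
        have := mul_le_mul_of_nonneg_left hk64' hδi.le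
        nlinarith
      · rw [← hd]
        linarith
      · rw [← hd]
        linarith
      · rw [← hd]
        have := mul_le_mul_of_nonneg_left hk128' hδi.le
        linarith
      · rw [← hd]
        have e1 : ‖zp d w‖ ≤ |(zp d w).re| + |(zp d w).im| := Complex.norm_le_abs_re_add_abs_im _
        rw [er, ei] at e1
        have e2 : |d * (w.1 : ℝ)| ≤ 2 * S := by
          rw [abs_le]; constructor <;> linarith
        have e3 : |d * ((w.2 : ℝ) + 1)| ≤ 2 * S := by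
          rw [abs_le]; constructor <;> linarith
        have := mul_le_mul_of_nonneg_left hk64' hδi.le
        rw [hR0]
        nlinarith
    · refine hsc.trans ?_
      linarith

end Pool.Agent.U151.HH
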