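import Pool.Agent.U151.DB.ArcXD
import Pool.Agent.U151.LB.ArcX
import Pool.Agent.Y989.HP.AllD

/-!
Strands of the exploration path of the half-plane.
-/

set_option autoImplicit false

namespace Pool.Agent.U151.HH

open H974 hiding dl
open H12S Finset H389NS H984P H984N H342P MeasureTheory
open Pool.Agent.Y989.HP.DETV (bxN)
open H984H (Conf perc path opn cut bx gam curve)
open Pool.Agent.Y989.HP.LIM (dl dl_pos place_zp curve_vis)
open Pool.Agent.TH966.DP (zp dist_pos_zp zp_dist zp_inj pl_node nt nt_mul)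
open Pool.Agent.U151.LB (near_orb exm_near blk_bulk mem_blk far_of_sd sd_tri)

/-- The path is an orbit, run backwards. -/
theorem orb_path (ω : Conf) (m : ℕ) : ∀ s ≤ m, orb (opn ω) (path ω m) s = path ω (m - s) := by
  intro s
  induction s with
  | zero => intro _; rw [orb_zero]; rfl
  | succ s ih =>
    intro hs
    rw [orb_succ, ih (by omega)]
    have h1 : path ω (m - s) = H984H.step (opn ω) (path ω (m - (s + 1))) := by
      rw [show m - s = (m - (s + 1)) + 1 by omega]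
      rfl
    rw [h1, H984H.nxt_step]

/-- The rules agree in the bulk. -/
theorem cfg_blk {ρ : ℤ} {R : ℕ} (hR : 1 ≤ R) {ω : Conf} {v : Vtx}
    (hv : inR (-ρ + 4 * R) (ρ - 4 * R) (4 * R) (ρ - 4 * R) v) {e : Edg}
    (he : e ∈ blk v (2 * R)) : e ∈ (bxN ρ).cfg (cut ω ρ) ↔ e ∈ opn ω := by
  obtain ⟨g1, g2⟩ := blk_bulk (D := bxN ρ) hR hv he
  have h3 : 0 < e.2.1 := by
    have h4 := (mem_blk v e (2 * R)).1 he
    have h5 : sd (src e) v ≤ ((2 * R : ℕ) : ℤ) := h4.1
    unfold sd at h5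
    rw [max_le_iff, abs_le, abs_le] at h5
    unfold inR at hv
    have h6 : (src e).2 = e.2.1 := by
      obtain ⟨x, y, b⟩ := e
      cases b <;> rfl
    rw [h6] at h5
    push_cast at h5
    omega
  unfold Dm.cfg
  rw [Set.mem_union]
  unfold H984H.cut H984H.opn
  rw [Finset.mem_coe, Finset.mem_filter, Set.mem_ofPred_eq]
  constructor
  · rintro (h | h)
    · exact Or.inr ⟨h3.le, fun h4 => by omega, h.2⟩
    · exact absurd h g2
  · rintro (h | h)
    · exact absurd h.1 h3.ne'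
    · exact Or.inl ⟨g1, h.2.2⟩

/-- Orbits up to the first exit agree. -/
theorem orb_blk {F G : Set Edg} {σ : St} {R τ : ℕ} (hR : 1 ≤ R)
    (h : ∀ s < τ, ¬ Far σ.1 R (orb G σ s).1) (hFG : ∀ e ∈ blk σ.1 (2 * R), (e ∈ G ↔ e ∈ F)) :
    ∀ s ≤ τ, orb F σ s = orb G σ s := by
  have hex : ∀ e ∈ Exm G σ τ, (e ∈ G ↔ e ∈ F) := by
    intro e he
    apply hFG
    have h5 := exm_near h he
    rw [mem_blk] at h5 ⊢
    push_cast at h5 ⊢
    constructor <;> omega
  exact fun s hs => orb_congr hex hs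

/-- A strand of the path in the bulk. -/
theorem strand {n : ℕ} (hn : 0 < n) {ω : Conf} {x y : unitInterval} (hxy : x ≤ y) {κ1 M : ℝ}
    {r : ℕ} {ρ : ℤ} (hr : dl n * (r + 8) ≤ κ1)
    (hD1 : |(curve n ω x).re| < M) (hD2 : 6 * κ1 < (curve n ω x).im) (hD3 : (curve n ω x).im < M)
    (hρ : M + 6 * κ1 ≤ dl n * ρ) (hdist : 2 * κ1 < dist (curve n ω x) (curve n ω y)) :
    ∃ m τ : ℕ, m ≤ n ∧ τ ≤ m ∧
      inR (-ρ + 4 * r) (ρ - 4 * r) (4 * r) (ρ - 4 * r) (path ω m).1 ∧
      (∀ s < τ, ¬ Far (path ω m).1 r (orb (opn ω) (path ω m) s).1) ∧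
      Far (path ω m).1 r (orb (opn ω) (path ω m) τ).1 ∧
      (∀ s ≤ τ, orb (opn ω) (path ω m) s = path ω (m - s)) ∧
      (∀ s ≤ τ, (x : ℝ) * n ≤ ((m - s : ℕ) : ℝ)) ∧ (m : ℝ) ≤ y * n := by
  obtain ⟨d, hd⟩ : ∃ d : ℝ, d = dl n := ⟨_, rfl⟩
  have hd0 : 0 < d := by rw [hd]; exact dl_pos hn
  rw [← hd] at hr hρ
  have hn' : (0:ℝ) < n := by exact_mod_cast hn
  have hr0 : (0:ℝ) ≤ r := Nat.cast_nonneg _
  have hκ1 : 0 < κ1 := lt_of_lt_of_le (by positivity) hr
  have hnode : ∀ s : unitInterval, ∀ k < n, (k : ℝ) ≤ s * n → (s : ℝ) * n ≤ k + 1 →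
      dist (curve n ω s) (zp d (path ω k).1) ≤ 5 / 2 * d := by
    intro s k hk h1 h2
    have h3 := H984H.curve_node ω hk h1 h2
    have h4 := place_zp (dl_pos hn).le (path ω k)
    have h6 := dist_triangle (curve n ω s) (((dl n : ℝ) : ℂ) * gam ω k) (zp (dl n) (path ω k).1)
    have h7 : dist (curve n ω s) (((dl n : ℝ) : ℂ) * gam ω k) ≤ dl n * (1 / 2) := by
      rw [dist_eq_norm]; exact h3
    have h8 : dist (((dl n : ℝ) : ℂ) * gam ω k) (zp (dl n) (path ω k).1) ≤ 2 * dl n := h4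
    rw [hd]
    linarith
  obtain ⟨i, hin, hi1, hi2⟩ := pl_exists_seg hn x
  obtain ⟨j, hjn, hj1, hj2⟩ := pl_exists_seg hn y
  have hi := hnode x i hin hi1 hi2
  have hj := hnode y j hjn hj1 hj2
  have hxy' : (x : ℝ) ≤ y := hxy
  have hxyN : (x : ℝ) * n ≤ y * n := mul_le_mul_of_nonneg_right hxy' hn'.le
  have hstep : ∀ k, dist (zp d (path ω k).1) (zp d (path ω (k + 1)).1) ≤ 2 * d := by
    intro k
    have h1 := Y989.FR.LIM3.zp_le hd0.le (path ω k).1 (path ω (k + 1)).1
    have h2' : sd (path ω k).1 (path ω (k + 1)).1 ≤ 1 := H984H.path_step ω k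
    have h2 : ((sd (path ω k).1 (path ω (k + 1)).1 : ℤ) : ℝ) ≤ 1 := by
      exact_mod_cast h2'
    nlinarith
  -- the indices
  have hij : i + 1 ≤ j := by
    by_contra hcon
    have h1 : j ≤ i := by omega
    have h2 : i ≤ j + 1 := by
      have : (i : ℝ) ≤ j + 1 := by linarith
      exact_mod_cast this
    have h3 : dist (zp d (path ω i).1) (zp d (path ω j).1) ≤ 2 * d := by
      rcases (show i = j ∨ i = j + 1 by omega) with h | h
      · rw [h, dist_self]; positivity
      · rw [h, dist_comm]; exact hstep j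
    have h4 := dist_triangle4 (curve n ω x) (zp d (path ω i).1) (zp d (path ω j).1) (curve n ω y)
    rw [dist_comm (zp d (path ω j).1) (curve n ω y)] at h4
    nlinarith
  have hi' : dist (curve n ω x) (zp d (path ω (i + 1)).1) ≤ 9 / 2 * d := by
    have h1 := hstep i
    have h2 := dist_triangle (curve n ω x) (zp d (path ω i).1) (zp d (path ω (i + 1)).1)
    linarith
  -- the first point far away
  have hfar : Far (path ω (i + 1)).1 r (path ω j).1 := by
    apply far_of_sd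
    by_contra hcon
    push Not at hcon
    have h1 : ((sd (path ω (i + 1)).1 (path ω j).1 : ℤ) : ℝ) ≤ r := by
      have : sd (path ω (i + 1)).1 (path ω j).1 ≤ (r : ℤ) := hcon.le
      exact_mod_cast this
    have h2 := Y989.FR.LIM3.zp_le hd0.le (path ω (i + 1)).1 (path ω j).1
    have h3 : d * ((sd (path ω (i + 1)).1 (path ω j).1 : ℤ) : ℝ) ≤ d * r :=
      mul_le_mul_of_nonneg_left h1 hd0.le
    have h4 := dist_triangle4 (curve n ω x) (zp d (path ω (i + 1)).1)
      (zp d (path ω j).1) (curve n ω y)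
    rw [dist_comm (zp d (path ω j).1) (curve n ω y)] at h4
    nlinarith
  have hex : ∃ m, i + 1 ≤ m ∧ Far (path ω (i + 1)).1 r (path ω m).1 := ⟨j, hij, hfar⟩
  classical
  obtain ⟨m, him, hmF, hmin, hmj⟩ : ∃ m, i + 1 ≤ m ∧ Far (path ω (i + 1)).1 r (path ω m).1 ∧
      (∀ s, i + 1 ≤ s → s < m → ¬ Far (path ω (i + 1)).1 r (path ω s).1) ∧ m ≤ j :=
    ⟨Nat.find hex, (Nat.find_spec hex).1, (Nat.find_spec hex).2,
      fun s h1 h2 h3 => Nat.find_min hex h2 ⟨h1, h3⟩, Nat.find_min' hex ⟨hij, hfar⟩⟩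
  -- its position
  have hsd : sd (path ω m).1 (path ω (i + 1)).1 ≤ r + 1 := by
    rcases eq_or_lt_of_le him with h | h
    · rw [← h]
      unfold sd
      simp
      omega
    · have h0 := Pool.Agent.U151.LB.sd_of_not_far (hmin (m - 1) (by omega) (by omega))
      have h1 : sd (path ω (m - 1)).1 (path ω (i + 1)).1 ≤ r := by omega
      have h2 := H984H.path_step ω (m - 1)
      rw [show m - 1 + 1 = m by omega] at h2
      have h2' : sd (path ω (m - 1)).1 (path ω m).1 ≤ 1 := h2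
      unfold sd at h1 h2' ⊢
      rw [max_le_iff, abs_le, abs_le] at h1 h2' ⊢
      omega
  have hback : Far (path ω m).1 r (orb (opn ω) (path ω m) (m - (i + 1))).1 := by
    rw [orb_path ω m _ (by omega), show m - (m - (i + 1)) = i + 1 by omega]
    unfold Far at hmF ⊢
    omega
  have hex2 : ∃ τ, Far (path ω m).1 r (orb (opn ω) (path ω m) τ).1 := ⟨_, hback⟩
  obtain ⟨τ, hτ, hτ1, hτm⟩ : ∃ τ, Far (path ω m).1 r (orb (opn ω) (path ω m) τ).1 ∧
      (∀ s < τ, ¬ Far (path ω m).1 r (orb (opn ω) (path ω m) s).1) ∧ τ ≤ m - (i + 1) :=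
    ⟨Nat.find hex2, Nat.find_spec hex2, fun s hs => Nat.find_min hex2 hs,
      Nat.find_min' hex2 hback⟩
  refine ⟨m, τ, by omega, by omega, ?_, hτ1, hτ, fun s hs => orb_path ω m s (by omega),
    fun s hs => ?_, ?_⟩
  · have hz : dist (curve n ω x) (zp d (path ω m).1) ≤ 9 / 2 * d + 2 * (d * (r + 1)) := by
      have h1 := dist_triangle (curve n ω x) (zp d (path ω (i + 1)).1) (zp d (path ω m).1)
      have h2 := Y989.FR.LIM3.zp_le hd0.le (path ω (i + 1)).1 (path ω m).1
      have h3 : ((sd (path ω (i + 1)).1 (path ω m).1 : ℤ) : ℝ) ≤ r + 1 := by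
        have : sd (path ω (i + 1)).1 (path ω m).1 ≤ (r : ℤ) + 1 := by
          unfold sd at hsd ⊢
          rw [max_le_iff, abs_le, abs_le] at hsd ⊢
          omega
        exact_mod_cast this
      have h4 := mul_le_mul_of_nonneg_left h3 hd0.le
      linarith
    have e1 : |(curve n ω x).re - (zp d (path ω m).1).re| ≤ 9 / 2 * d + 2 * (d * (r + 1)) := by
      have := Complex.abs_re_le_norm (curve n ω x - zp d (path ω m).1)
      rw [Complex.sub_re, ← dist_eq_norm] at this
      exact this.trans hz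
    have e2 : |(curve n ω x).im - (zp d (path ω m).1).im| ≤ 9 / 2 * d + 2 * (d * (r + 1)) := by
      have := Complex.abs_im_le_norm (curve n ω x - zp d (path ω m).1)
      rw [Complex.sub_im, ← dist_eq_norm] at this
      exact this.trans hz
    rw [abs_le] at e1 e2
    rw [abs_lt] at hD1
    have p1 : (zp d (path ω m).1).re = d * (path ω m).1.1 := rfl
    have p2 : (zp d (path ω m).1).im = d * ((path ω m).1.2 + 1) := rfl
    rw [p1] at e1
    rw [p2] at e2
    have q : ∀ u w : ℤ, d * (u : ℝ) < d * w → u < w := by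
      intro u w h
      have := lt_of_mul_lt_mul_left h hd0.le
      exact_mod_cast this
    unfold inR
    have g1 : -ρ + 4 * (r : ℤ) < (path ω m).1.1 := by
      apply q
      push_cast
      nlinarith
    have g2 : (path ω m).1.1 < ρ - 4 * (r : ℤ) := by
      apply q
      push_cast
      nlinarith
    have g3 : 4 * (r : ℤ) < (path ω m).1.2 := by
      apply q
      push_cast
      nlinarith
    have g4 : (path ω m).1.2 < ρ - 4 * (r : ℤ) := by
      apply q
      push_cast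
      nlinarith
    exact ⟨⟨g1.le, g2.le⟩, g3.le, g4.le⟩
  · have h1 : i + 1 ≤ m - s := by omega
    have h2 : ((i + 1 : ℕ) : ℝ) ≤ ((m - s : ℕ) : ℝ) := by exact_mod_cast h1
    push_cast at h2
    linarith
  · have h1 : (m : ℝ) ≤ j := by exact_mod_cast hmj
    linarith

end Pool.Agent.U151.HH
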