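import Pool.Agent.U151.HH.ArcHL

/-!
Subpaths of the exploration path of the half-plane: vertices which are visited twice.
-/

set_option autoImplicit false

namespace Pool.Agent.U151.HH

open H974 hiding dl
open H12S Finset H389NS H984P H984N H342P MeasureTheory Filter Topology
open Pool.Agent.H389R2.Dim
open H984H (Conf perc path opn cut bx gam curve lawH lawH_apply)
open Pool.Agent.Y989.HP.DETV (bxN)
open Pool.Agent.W822.PD (EnV)
open Pool.Agent.Y989.HP.LIM (dl dl_pos place_zp curve_vis)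
open Pool.Agent.TH966.DP (zp dist_pos_zp zp_dist zp_inj pl_node nt nt_mul)
open Pool.Agent.U151.LB (near_orb exm_near blk_bulk mem_blk far_of_sd sd_tri)
open Pool.Agent.U151.DB (RDbN RDbN_congr lgB GB isClosed_GB Qd isClosed_Qd Dp Dp_of_Qd good_of_VD
  sd_far parD)
open scoped ENNReal NNReal

theorem badD_perc {t c E : ℝ} {N a R : ℕ} {ρ : ℤ} (hR : 1 ≤ R)
    (hρ : 0 ≤ ρ) (hN : 2 * ρ ≤ N) :
    perc.real {ω | DB.BadX t c E N a R (bxN ρ) (cut ω ρ)} ≤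
      Pr (fun _ => (1/2:ℝ)) (RE (-ρ) (-ρ + N) 0 (0 + N)) (DB.BadN t c E N a R (-ρ) 0) := by
  have h1 := Pool.Agent.Y989.HP.RETCUT.t_CUTP ρ (DB.BadX t c E N a R (bxN ρ))
  rw [h1]
  refine DB.badX_le (D := bxN ρ) hR ?_ ?_
  · show ρ ≤ -ρ + N
    omega
  · show ρ ≤ N
    omega

theorem arc_DH {t c E : ℝ} {N a r n : ℕ} (hn : 0 < n) {ω : Conf} {ρ : ℤ}
    (hr1 : 1 ≤ r) (hbad : ¬ DB.BadX t c E N a r (bxN ρ) (cut ω ρ)) {x y : unitInterval}
    (hxy : x ≤ y) {κ1 M1 : ℝ} (hr : dl n * (r + 8) ≤ κ1) (hD1 : |(curve n ω x).re| < M1)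
    (hD2 : 6 * κ1 < (curve n ω x).im) (hD3 : (curve n ω x).im < M1)
    (hρ : M1 + 6 * κ1 ≤ dl n * ρ) (hdist : 2 * κ1 < dist (curve n ω x) (curve n ω y)) :
    ∃ V : Finset Vtx, c * (N : ℝ) ^ (3/4 : ℝ) ≤ (V.card : ℝ) ∧
      EnV t V ≤ E * (N : ℝ) ^ (3/2 - t) ∧ ∀ w ∈ V,
        inR (-ρ + 3 * r - 1) (ρ - 3 * r + 1) (3 * r - 1) (ρ - 3 * r + 1) w ∧
        ∃ v1 v3 v2 : Vtx, ∃ s1 s3 s2 : unitInterval,
          (x ≤ s1 ∧ s1 ≤ s3 ∧ s3 ≤ s2 ∧ s2 ≤ y) ∧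
          (dist (curve n ω s1) (zp (dl n) v1) ≤ 2 * dl n ∧
            dist (curve n ω s3) (zp (dl n) v3) ≤ 2 * dl n ∧
            dist (curve n ω s2) (zp (dl n) v2) ≤ 2 * dl n) ∧
          (sd v1 w ≤ 1 ∧ sd v2 w ≤ 1) ∧ Far w (2 * a) v3 := by
  obtain ⟨m, τ, hmn, hτm, hin, hτ1, hτ, horb, hx, hy⟩ :=
    strand hn hxy hr hD1 hD2 hD3 hρ hdist
  have hn' : (0:ℝ) < n := by exact_mod_cast hn
  have hFG : ∀ e ∈ blk (path ω m).1 (2 * r), (e ∈ opn ω ↔ e ∈ (bxN ρ).cfg (cut ω ρ)) :=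
    fun e he => (cfg_blk hr1 hin he).symm
  have ho := orb_blk hr1 hτ1 hFG
  have hτ1' : ∀ s < τ, ¬ Far (path ω m).1 r (orb ((bxN ρ).cfg (cut ω ρ)) (path ω m) s).1 := by
    intro s hs
    rw [ho s hs.le]
    exact hτ1 s hs
  have hgood : RDbN t c E N (2 * a) (path ω m) τ (opn ω) := by
    refine RDbN_congr ho ?_
    by_contra hcon
    refine hbad ⟨path ω m, τ, hin, hτ1', ?_, hcon⟩
    rw [ho τ le_rfl]
    exact hτ
  obtain ⟨V, hV1, hV2, hV3⟩ := hgood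
  refine ⟨V, hV1, hV2, fun w hw => ?_⟩
  obtain ⟨s1, s3, s2, h13, h32, h2τ, hs1, hs2, hs3⟩ := hV3 w hw
  have hk1 : m - s1 ≤ n := by omega
  have hk2 : m - s2 ≤ n := by omega
  have hk3 : m - s3 ≤ n := by omega
  rw [horb s1 (by omega)] at hs1
  rw [horb s2 h2τ] at hs2
  rw [horb s3 (by omega)] at hs3
  refine ⟨?_, (path ω (m - s2)).1, (path ω (m - s3)).1, (path ω (m - s1)).1, nt n _ hk2,
    nt n _ hk3, nt n _ hk1, ⟨?_, ?_, ?_, ?_⟩,
    ⟨curve_vis hn ω hk2, curve_vis hn ω hk3, curve_vis hn ω hk1⟩, ⟨hs2, hs1⟩, hs3⟩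
  · have h1 := near_orb hτ1 (show s1 ≤ τ by omega)
    rw [horb s1 (by omega)] at h1
    have h2 := hs1
    unfold sd at h1 h2
    rw [max_le_iff, abs_le, abs_le] at h1 h2
    unfold inR at hin ⊢
    omega
  · show (x : ℝ) ≤ ((m - s2 : ℕ) : ℝ) / n
    rw [le_div_iff₀ hn']
    exact hx s2 h2τ
  · show ((m - s2 : ℕ) : ℝ) / n ≤ ((m - s3 : ℕ) : ℝ) / n
    have : ((m - s2 : ℕ) : ℝ) ≤ ((m - s3 : ℕ) : ℝ) := by
      have : m - s2 ≤ m - s3 := by omega
      exact_mod_cast this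
    gcongr
  · show ((m - s3 : ℕ) : ℝ) / n ≤ ((m - s1 : ℕ) : ℝ) / n
    have : ((m - s3 : ℕ) : ℝ) ≤ ((m - s1 : ℕ) : ℝ) := by
      have : m - s3 ≤ m - s1 := by omega
      exact_mod_cast this
    gcongr
  · show ((m - s1 : ℕ) : ℝ) / n ≤ y
    rw [div_le_iff₀ hn']
    have : ((m - s1 : ℕ) : ℝ) ≤ m := by
      have : m - s1 ≤ m := Nat.sub_le _ _
      exact_mod_cast this
    linarith

theorem llHD {φ : ℕ → ℕ} (hφ : Tendsto φ atTop atTop)
    {μ : ProbabilityMeasure C(unitInterval, ℂ)} (hμ : Tendsto (fun i => lawH (φ i)) atTop (𝓝 μ))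
    {t : ℝ} (ht : 0 < t) (ht1 : t < 3/4) {κ M1 : ℝ} (hκ : 0 < κ) (hM1 : 0 < M1) :
    ∀ᵐ f : C(unitInterval, ℂ) ∂(μ : Measure C(unitInterval, ℂ)), ∀ u v : unitInterval, u ≤ v →
      f u ∈ DH (3 * κ) M1 → κ < dist (f u) (f v) →
      ENNReal.ofReal t ≤ dimH (Dp f u v ∩ {z | 0 < z.im}) := by
  refine lgB (fun f : C(unitInterval, ℂ) => f) hμ ht (fun f u v => Dp f u v ∩ {z | 0 < z.im}) ?_
  intro ε hε
  obtain ⟨δ', hδ', hδε⟩ : ∃ δ : ℝ, 0 < δ ∧ ENNReal.ofReal δ ≤ ε := by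
    rcases eq_or_ne ε ∞ with h | h
    · exact ⟨1, one_pos, by rw [h]; exact le_top⟩
    · exact ⟨ε.toReal, ENNReal.toReal_pos hε.ne' h, by rw [ENNReal.ofReal_toReal h]⟩
  obtain ⟨S, hSdef⟩ : ∃ S : ℝ, S = M1 + 3 * κ := ⟨_, rfl⟩
  have hS : 0 < S := by rw [hSdef]; positivity
  obtain ⟨ρ0, c0, E0, hρ0, hc0, hE0, n0, hn0⟩ :=
    parD ht ht1 (κ := κ / (64 * S)) (by positivity) hδ'
  obtain ⟨K, hKdef⟩ : ∃ K : Set ℂ,
    K = Set.Icc (-(2 * S)) (2 * S) ×ℂ Set.Icc (ρ0 * S) (2 * S) := ⟨_, rfl⟩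
  have hKc : IsCompact K := by
    rw [hKdef]
    exact isCompact_Icc.reProdIm isCompact_Icc
  obtain ⟨cc, hcc⟩ : ∃ cc : ℝ, cc = 2 ^ (-t) / (E0 / c0 ^ 2 * S ^ (-t)) := ⟨_, rfl⟩
  have hcl : ∀ ε' : ℝ, IsClosed {f : C(unitInterval, ℂ) | GB t ε' cc κ (DH (3 * κ) M1) K
      (fun u v k => Qd (ρ0 * S) u v k) f} := fun ε' =>
    isClosed_GB (fun u v k => isClosed_Qd _ _ _ _) hKc (isOpen_DH _ _)
  refine ⟨cc, K, fun u v k => Qd (ρ0 * S) u v k,
    by rw [hcc]; positivity, hKc, fun u v k => isClosed_Qd _ _ _ _, hcl, ?_, ?_⟩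
  · intro f u v z hzK hz
    refine ⟨Dp_of_Qd (by positivity) hz, ?_⟩
    rw [hKdef, Complex.mem_reProdIm, Set.mem_Icc, Set.mem_Icc] at hzK
    have h1 : 0 < ρ0 * S := by positivity
    exact lt_of_lt_of_le h1 hzK.2.1
  · intro ε' hε'
    obtain ⟨δm, hδm⟩ : ∃ δm : ℝ, δm = min (ε' / 4) (min (min S (κ / 64))
      (min (ρ0 * S / 8) (S / ((n0 : ℝ) + 1)))) := ⟨_, rfl⟩
    have hδm0 : 0 < δm := by
      rw [hδm]
      refine lt_min (by positivity) (lt_min (lt_min hS (by positivity))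
        (lt_min (by positivity) (by positivity)))
    have hev : ∀ᶠ i in atTop, dl (φ i) < δm := (tendsto_order.1 (dl_lim hφ)).2 _ hδm0
    filter_upwards [hev, hφ.eventually_gt_atTop 0] with i hi hn
    have hi1 : dl (φ i) ≤ ε' / 4 := hi.le.trans (by rw [hδm]; exact min_le_left _ _)
    have hi2 : dl (φ i) ≤ S := hi.le.trans (by
      rw [hδm]; exact (min_le_right _ _).trans ((min_le_left _ _).trans (min_le_left _ _)))
    have hi3 : dl (φ i) ≤ κ / 64 := hi.le.trans (by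
      rw [hδm]; exact (min_le_right _ _).trans ((min_le_left _ _).trans (min_le_right _ _)))
    have hi4 : dl (φ i) ≤ ρ0 * S / 8 := hi.le.trans (by
      rw [hδm]; exact (min_le_right _ _).trans ((min_le_right _ _).trans (min_le_left _ _)))
    have hi5 : dl (φ i) ≤ S / ((n0 : ℝ) + 1) := hi.le.trans (by
      rw [hδm]; exact (min_le_right _ _).trans ((min_le_right _ _).trans (min_le_right _ _)))
    obtain ⟨n, hnφ⟩ : ∃ n : ℕ, n = φ i := ⟨_, rfl⟩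
    rw [← hnφ] at hi1 hi2 hi3 hi4 hi5 hn
    have hδi := dl_pos hn
    obtain ⟨d, hd⟩ : ∃ d : ℝ, d = dl n := ⟨_, rfl⟩
    have hop : IsOpen {f : C(unitInterval, ℂ) | ¬ GB t ε' cc κ (DH (3 * κ) M1) K
        (fun u v k => Qd (ρ0 * S) u v k) f} :=
      (hcl ε').isOpen_compl
    change (lawH (φ i) : Measure C(unitInterval, ℂ)) {f : C(unitInterval, ℂ) |
      ¬ GB t ε' cc κ (DH (3 * κ) M1) K (fun u v k => Qd (ρ0 * S) u v k) f} ≤ ε
    rw [← hnφ, lawH_apply n hop.measurableSet]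
    refine le_trans (ENNReal.ofReal_le_ofReal ?_) hδε
    rw [← hd] at hi1 hi2 hi3 hi4 hi5 hδi
    -- the lattice scale
    obtain ⟨p, hp⟩ : ∃ p : ℕ, p = ⌈S / d⌉₊ := ⟨_, rfl⟩
    have hp1 : S / d ≤ p := by rw [hp]; exact Nat.le_ceil _
    have hp2 : (p : ℝ) < S / d + 1 := by
      rw [hp]
      exact Nat.ceil_lt_add_one (by positivity)
    have hdp1 : S ≤ d * p := by
      rw [div_le_iff₀ hδi] at hp1
      linarith
    have hdp2 : d * p ≤ 2 * S := by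
      have h1 : d * p ≤ d * (S / d + 1) := mul_le_mul_of_nonneg_left hp2.le hδi.le
      have h2 : d * (S / d + 1) = S + d := by field_simp
      linarith
    obtain ⟨N, hN⟩ : ∃ N : ℕ, N = 2 * p := ⟨_, rfl⟩
    have hNr : (N : ℝ) = 2 * p := by rw [hN]; push_cast; ring
    have hnn0 : n0 ≤ N := by
      have h1 : (n0 : ℝ) + 1 ≤ S / d := by
        rw [le_div_iff₀ hδi]
        rw [le_div_iff₀ (by positivity)] at hi5
        linarith
      have h2 : (n0 : ℝ) ≤ p := by linarith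
      have h3 : n0 ≤ p := by exact_mod_cast h2
      omega
    have hNpos : 0 < N := by
      have h1 : (0:ℝ) < p := lt_of_lt_of_le (by positivity) hp1
      have h2 : 0 < p := by exact_mod_cast h1
      omega
    have hdN1 : S ≤ d * N := by
      rw [hNr]
      linarith
    have hdN2 : d * N ≤ 4 * S := by
      rw [hNr]
      linarith
    obtain ⟨a, r, ha5, ha1, har, hrκ, hpr⟩ := hn0 N hnn0
    have hpr := hpr (-(p : ℤ)) 0
    refine le_trans ?_ ((badD_perc (by omega) (ρ := (p : ℤ)) (by omega)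
      (by rw [hN]; push_cast; exact le_rfl)).trans hpr)
    refine measureReal_mono ?_ (measure_ne_top _ _)
    intro ω hbad
    by_contra hcon
    apply hbad
    intro u v huv hD hdist
    have har' : (16 : ℝ) * a ≤ r := by exact_mod_cast har
    have hdr : d * r ≤ κ / 16 := by
      have h1 : d * r ≤ d * (κ / (64 * S) * N) := mul_le_mul_of_nonneg_left hrκ hδi.le
      have h2 : d * (κ / (64 * S) * N) = κ / (64 * S) * (d * N) := by ring
      have h3 : κ / (64 * S) * (d * N) ≤ κ / (64 * S) * (4 * S) :=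
        mul_le_mul_of_nonneg_left hdN2 (by positivity)
      have h4 : κ / (64 * S) * (4 * S) = κ / 16 := by field_simp; norm_num
      linarith
    obtain ⟨hDa, hDb, hDc⟩ := hD
    obtain ⟨V, hV1, hV2, hV3⟩ := arc_DH (κ1 := κ / 2) (M1 := M1) hn (by omega) hcon huv
      (by rw [← hd]; nlinarith) hDa (by linarith) hDc
      (by rw [← hd]; push_cast; linarith) (by linarith)
    rw [hcc]
    refine good_of_VD hδi hS hNpos hdN1 ht hc0 hE0 (by linarith) hV1 hV2 ?_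
    intro w hw
    obtain ⟨hin, v1, v3, v2, s1, s3, s2, ⟨o1, o2, o3, o4⟩, ⟨c1, c3, c2⟩, ⟨n1, n2⟩, hfar⟩ := hV3 w hw
    rw [← hd] at c1 c2 c3
    have hda1 : ρ0 * S ≤ d * a := by
      have h1 := mul_le_mul_of_nonneg_left ha1 hδi.le
      have h2 : ρ0 * S ≤ ρ0 * (d * N) := mul_le_mul_of_nonneg_left hdN1 hρ0.le
      linarith
    -- position of `w`
    obtain ⟨⟨w1, w2⟩, w3, w4⟩ := hin
    have w1' : -(p : ℝ) ≤ w.1 := by
      have : -(p : ℤ) ≤ w.1 := by omega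
      exact_mod_cast this
    have w2' : (w.1 : ℝ) ≤ p := by
      have : w.1 ≤ (p : ℤ) := by omega
      exact_mod_cast this
    have w3' : (a : ℝ) ≤ w.2 + 1 := by
      have : (a : ℤ) ≤ w.2 + 1 := by omega
      exact_mod_cast this
    have w4' : (w.2 : ℝ) + 1 ≤ p := by
      have : w.2 + 1 ≤ (p : ℤ) := by omega
      exact_mod_cast this
    have er : (zp d w).re = d * w.1 := rfl
    have ei : (zp d w).im = d * (w.2 + 1) := rfl
    have x1 : -(2 * S) ≤ d * w.1 := by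
      have : d * (-(p : ℝ)) ≤ d * w.1 := mul_le_mul_of_nonneg_left w1' hδi.le
      linarith
    have x2 : d * w.1 ≤ 2 * S := by
      have : d * w.1 ≤ d * (p : ℝ) := mul_le_mul_of_nonneg_left w2' hδi.le
      linarith
    have x3 : ρ0 * S ≤ d * ((w.2 : ℝ) + 1) := by
      have : d * (a : ℝ) ≤ d * ((w.2 : ℝ) + 1) := mul_le_mul_of_nonneg_left w3' hδi.le
      linarith
    have x4 : d * ((w.2 : ℝ) + 1) ≤ 2 * S := by
      have : d * ((w.2 : ℝ) + 1) ≤ d * (p : ℝ) := mul_le_mul_of_nonneg_left w4' hδi.le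
      linarith
    have hnearw : ∀ (s : unitInterval) (v : Vtx), dist (curve n ω s) (zp d v) ≤ 2 * d →
        sd v w ≤ 1 → dist (curve n ω s) (zp d w) ≤ 4 * d := by
      intro s v hs hsd
      have h2 := Y989.FR.LIM3.zp_le hδi.le v w
      have h3 : ((sd v w : ℤ) : ℝ) ≤ 1 := by exact_mod_cast hsd
      have h4 := dist_triangle (curve n ω s) (zp d v) (zp d w)
      nlinarith
    refine ⟨?_, fun j hj => ⟨(s1, s3, s2), ⟨⟨o1, o2⟩, ⟨o3, o4⟩⟩, ⟨?_, ?_⟩, ?_⟩⟩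
    · rw [hKdef, Complex.mem_reProdIm, Set.mem_Icc, Set.mem_Icc, er, ei]
      exact ⟨⟨x1, x2⟩, x3, x4⟩
    · refine (hnearw s1 v1 c1 n1).trans ?_
      linarith
    · refine (hnearw s2 v2 c2 n2).trans ?_
      linarith
    · show ρ0 * S ≤ dist (curve n ω s3) (zp d w)
      have h2 : 2 * (a : ℤ) - 2 ≤ sd w v3 := sd_far hfar (by unfold sd; simp)
      have h3 := zp_dist hδi.le w v3
      have h4 : (2 * (a : ℝ) - 2) ≤ ((sd w v3 : ℤ) : ℝ) := by exact_mod_cast h2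
      have h5 := dist_triangle (zp d w) (curve n ω s3) (zp d v3)
      rw [dist_comm (zp d w) (curve n ω s3)] at h5
      nlinarith

end Pool.Agent.U151.HH
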